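import Mathlib
import Pool.Agent.H.MP_58e1fa_al.A

set_option autoImplicit false

namespace Pool.Agent.Results.MP_58e1fa_al.Golden

open Filter Pool.Agent.H1701 Pool.Agent.H58e1

/-- `w` has cyclically reduced length `n` -/
def CycLen (w : FreeGroup (Fin 2)) (n : ℕ) : Prop :=
  ∃ L, FreeGroup.IsCyclicallyReduced L ∧ L.length = n ∧ IsConj (FreeGroup.mk L) w

/-- `limsup (max {N w : ‖w‖ = n}) ^ (1 / n)` -/
noncomputable def rate (N : FreeGroup (Fin 2) → ℕ) : ℝ :=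
  limsup (fun n : ℕ => ((sSup {k | ∃ w, CycLen w n ∧ N w = k} : ℕ) : ℝ) ^ ((1 : ℝ) / n)) atTop

/-- `C_H = C_L = (1 + √5) / 2`. -/
theorem result (f : FreeGroup (Fin 2) → MvPolynomial (Fin 3) ℤ) (hf : ∀ w, IsTracePoly w (f w)) :
    rate (fun w => Hc (f w)) = (1 + √5) / 2 ∧ rate (fun w => Lc (f w)) = (1 + √5) / 2 := by
  obtain ⟨K, K0, hK⟩ := upper hf
  obtain ⟨c, hc, -, h2⟩ := ex_const
  have key : ∀ N : FreeGroup (Fin 2) → ℕ, (∀ w, Hc (f w) ≤ N w ∧ N w ≤ Lc (f w)) →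
      rate N = Real.goldenRatio := by
    intro N hN
    refine (sqz (c := c) (by positivity) K0 fun n => ?_).limsup_eq
    have h3 : ∀ k ∈ {k | ∃ w, CycLen w n ∧ N w = k}, (k : ℝ) ≤ K * Real.goldenRatio ^ n := by
      rintro _ ⟨w, ⟨L, -, rfl, h⟩, rfl⟩
      obtain ⟨g, rfl⟩ := isConj_iff.1 h
      refine le_trans ?_ (hK L)
      have := (hN (g * .mk L * g⁻¹)).2
      rw [f_cyc hf, inv_mul_cancel_left] at this
      exact_mod_cast this
    have h4 : N (.of 0 ^ n) ∈ {k | ∃ w, CycLen w n ∧ N w = k} := by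
      refine ⟨_, ⟨List.replicate n (0, true), ⟨List.Pairwise.isChain
        (List.pairwise_of_forall_mem_list fun a ha b hb _ => ?_), fun a ha b hb _ => ?_⟩, by simp,
        ?_⟩, rfl⟩
      · rw [List.eq_of_mem_replicate ha, List.eq_of_mem_replicate hb]
      · rw [List.eq_of_mem_replicate (List.mem_of_mem_getLast? ha),
          List.eq_of_mem_replicate (List.mem_of_mem_head? hb)]
      · rw [← FreeGroup.toWord_of_pow, FreeGroup.mk_toWord]
    have h5 : BddAbove {k | ∃ w, CycLen w n ∧ N w = k} :=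
      ⟨⌊K * Real.goldenRatio ^ n⌋₊, fun k hk => Nat.le_floor (h3 k hk)⟩
    refine ⟨(lower hf n).trans ?_, h3 _ (Nat.sSup_mem ⟨_, h4⟩ h5)⟩
    have h6 := deg_f hf h2 (.of 0 ^ n)
    rw [FreeGroup.norm_of_pow] at h6
    exact_mod_cast (Lc_le h6).trans
      (Nat.mul_le_mul_left _ ((hN _).1.trans (le_csSup h5 h4)))
  exact ⟨key _ fun w => ⟨le_rfl, Hc_le _⟩, key _ fun w => ⟨Hc_le _, le_rfl⟩⟩

end Pool.Agent.Results.MP_58e1fa_al.Golden
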